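import Pool.Agent.Q300.TW.Gen

/-!
# Twisted topological zeta functions of generic compositions: the strong form, with orders

Let `Φ(x, z)` and `p_1(x), …, p_k(x)` be polynomials whose exponents are arbitrary and whose
coefficients are generic (at some exponents, for instance at the vertices of the Newton polytopes;
the other terms are arbitrary), and let `f(x) = Φ(x, p_1(x) / c_1, …, p_k(x) / c_k)`; for `k = 0` these
are the polynomials with an arbitrary Newton polytope and generic coefficients at the vertices. We
prove for all the global twisted topological zeta functions `Z^(e)`, `e ≥ 2`, of `f` that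
`b_f(s) Z^(e)(s)` is a polynomial divisible by `s + 1`: every pole of `Z^(e)` is a root of the reduced
Bernstein-Sato polynomial `b_f(s) / (s + 1)`, of at least the same order. (For `e = 1`, the untwisted
case, see the starting result `GenericCompositions` of `MP_504089_ag`.) By the theorem of Malgrange
and Kashiwara, `exp(2 π i s0)` is then an eigenvalue of the monodromy of `f`, for every pole `s0`.

Examples are all products of powers `x ^ u ∏_i p_i ^ (e_i)` of generic polynomials `p_i` (`Φ` a
monomial), sums of such products, iterated compositions such as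
`((x_2 ^ 2 - x_1 ^ 3) ^ 2 - x_1 ^ 5 x_2) ^ 2 + …` with generic coefficients, and so on. These `f` are in
general not reduced and degenerate with respect to their Newton polytopes, in all coordinates, and
their singularities are not isolated.

Method. The polynomial `f + y_1 z_1 + ⋯ + y_k z_k` becomes `G = Φ + ∑ y_i l_i`, `l_i = c_i z_i - p_i(x)`, by an
automorphism of the polynomial ring, and `G` has generic coefficients. If `b_f(s) = (s + 1) c(s)`, then
`f + ∑ y_i z_i` has a functional equation with `(s + 1) c(s + k)`. For very general coefficients the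
theorem is known for `G` (`GenericTwisted`); the passage to generic coefficients uses that the
multiplicities of the roots of the functional equations can be read off from very general
coefficients (`W425.GN.univ`), applied to the rational functions `Z_G^(e) / (s + 1)`. Finally
`Z_f^(e)(s) = Z_G^(e)(s - k)` for `e ≥ 2`.
-/

set_option autoImplicit false

namespace Pool.Agent.Results.MP_b22d1f_ag.GenericCompositionsTwisted

open Polynomial Pool.Agent.H628R4.TP
open Pool.Agent.W425.SM (SmoothFan Principal)
open Pool.Agent.W425.MM (NonD we wc)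
open Pool.Agent.Y229.RE (unstab ex)
open Pool.Agent.Y229.PS (tup hG)
open Pool.Agent.Y229.PG (HullT topZetaTw)

/-- **The strong monodromy conjecture, with orders, for the twisted topological zeta functions of
generic compositions.**

Let `F ⊆ ℂ` be a field and let exponents `m_j ∈ ℕ ^ (N + k)` of monomials in `x_1, …, x_N, z_1, …, z_k`
be given, `j = 1, …, r`, in groups `π j ∈ {0, …, k}` (in each group the `m_j` are distinct; in the
group `0` they are nonzero). For `a ∈ ℂ ^ r` let `tup π m a H i = ∑_{π j = i} a_j X ^ (m_j) + H_i`, where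
`H_i` is a polynomial over `F` with exponents in the convex hull of the `m_j` with `π j = i` (`HullT`).
We write `Φ_a = tup π m a H 0` and `l_i = tup π m a H i`, `i = 1, …, k`. There is a nonzero polynomial
`g` over `F` such that for all `a ∈ ℂ ^ r` with `g(a) ≠ 0`:

* The polynomial `G_a = Φ_a + ∑_i y_i l_i` is nondegenerate (`NonD`, for its exponents and
  coefficients: `ex π m` and `a`, together with those of `hG H = H_0 + ∑ y_i H_i`).

* Let `l_i = c_i z_i - p_i(x)`, `c_i ≠ 0`, for `i = 1, …, k`, and let
  `f(x) = Φ_a(x, p_1(x) / c_1, …, p_k(x) / c_k)` be non-constant. Let `b` be a polynomial with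
  `IsBFunction f b` (`b(s) f ^ s = P(s) f ^ (s + 1)` for a differential operator `P(s)` in the Weyl
  algebra, polynomial in `s`; for example `b = b_f`). Then for every `e ≥ 2` the product `b(s) Z_f^(e)(s)`
  is a polynomial divisible by `s + 1`.

  Here `Z_f^(e) = unstab k e Z`, that is `Z_f^(e)(s) = Z(s - k)`, is the global twisted topological zeta
  function of `f`, where `Z = topZetaTw (ex π m) R e` is the twisted topological zeta function of the
  nondegenerate polynomial `G_a`, computed on the toric resolution of any smooth fan `R` subdividing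
  the orthant of `ℝ ^ (N + 2 k)` on which the ideal of the monomials of `G_a` becomes principal.

* More generally, the same holds for every non-constant `f ∈ ℂ[x]` with `Φ_a = f + ∑ q_i l_i`, `q_i ∈ ℂ[x, z]`,
  if `(x, z) ↦ (x, l(x, z))` is an automorphism of `ℂ ^ (N + k)`, that is `θ(x_i) = x_i`, `θ(z_i) = l_i`
  for an automorphism `θ` of the algebra `ℂ[x, z]`; for example if `l_i = c_i z_i - p_i(x, z_1, …, z_{i-1})`,
  `c_i ≠ 0` (iterated compositions). -/
theorem result {N k r : ℕ} (hr : 1 ≤ r) (F : Subfield ℂ) (π : Fin r → Fin (k + 1))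
    (m : Fin r → Fin (N + k) → ℕ) (hinj : ∀ j j', π j = π j' → m j = m j' → j = j')
    (hm : ∀ j, π j = 0 → m j ≠ 0) (H : Fin (k + 1) → MvPolynomial (Fin (N + k)) F)
    (hH : ∀ i, ∀ w ∈ (H i).support, HullT π m i w) :
    ∃ g : MvPolynomial (Fin r) F, g ≠ 0 ∧ ∀ a : Fin r → ℂ, MvPolynomial.aeval a g ≠ 0 →
      NonD (Fin.append (ex π m) (we (hG H)))
        (Fin.append a (fun l => algebraMap F ℂ (wc (hG H) l))) ∧
      (∀ (c : Fin k → ℂ) (p : Fin k → MvPolynomial (Fin N) ℂ), (∀ i, c i ≠ 0) →
        (∀ i : Fin k, tup π m a H i.succ = MvPolynomial.C (c i) * MvPolynomial.X (Fin.natAdd N i) -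
          MvPolynomial.rename (Fin.castAdd k) (p i)) →
        ∀ f : MvPolynomial (Fin N) ℂ, f = MvPolynomial.aeval (Fin.append MvPolynomial.X
          fun i => MvPolynomial.C (c i)⁻¹ * p i) (tup π m a H 0) → f.totalDegree ≠ 0 →
        ∀ b : ℂ[X], IsBFunction f b →
        ∀ R : SmoothFan (N + (k + k)), Principal (ex π m) R →
          ∀ e : ℕ, 2 ≤ e → ∃ P : ℂ[X], algebraMap ℂ[X] (RatFunc ℂ) b *
            unstab k e (topZetaTw (ex π m) R e) =
              algebraMap ℂ[X] (RatFunc ℂ) ((X + 1) * P)) ∧
      (∀ θ : MvPolynomial (Fin (N + k)) ℂ ≃ₐ[ℂ] MvPolynomial (Fin (N + k)) ℂ,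
        (∀ i, θ (MvPolynomial.X (Fin.castAdd k i)) = MvPolynomial.X (Fin.castAdd k i)) →
        (∀ i, θ (MvPolynomial.X (Fin.natAdd N i)) = tup π m a H i.succ) →
        ∀ (f : MvPolynomial (Fin N) ℂ) (q : Fin k → MvPolynomial (Fin (N + k)) ℂ),
          f.totalDegree ≠ 0 → tup π m a H 0 =
            MvPolynomial.rename (Fin.castAdd k) f + ∑ i, q i * tup π m a H i.succ →
        ∀ b : ℂ[X], IsBFunction f b →
        ∀ R : SmoothFan (N + (k + k)), Principal (ex π m) R →
          ∀ e : ℕ, 2 ≤ e → ∃ P : ℂ[X], algebraMap ℂ[X] (RatFunc ℂ) b *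
            unstab k e (topZetaTw (ex π m) R e) =
              algebraMap ℂ[X] (RatFunc ℂ) ((X + 1) * P)) := by
  obtain ⟨g, hg0, hg⟩ := Pool.Agent.Q300.TW.graph_tw hr F π m hinj hm H hH
  refine ⟨g, hg0, fun a ha => ⟨(hg a ha).1, ?_, fun θ hx hz f q hf hF b hb R hR =>
    ((hg a ha).2 θ hx hz f q hf hF b hb R hR).2⟩⟩
  intro c p hc hl f hf hf0 b hb R hR
  obtain ⟨θ, h1, h2⟩ := Pool.Agent.Y229.PG.graph_equiv c hc p
  obtain ⟨q, hq⟩ := Pool.Agent.Y229.PG.graph_restrict c hc p (tup π m a H 0)
  refine ((hg a ha).2 θ h1 (fun i => ?_) f q hf0 ?_ b hb R hR).2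
  · rw [h2, hl]
  · rw [hf]
    simp only [hl]
    exact hq

end Pool.Agent.Results.MP_b22d1f_ag.GenericCompositionsTwisted
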