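import Pool.Agent.Q300.TW.Sp

/-!
# Twisted topological zeta functions of stably sparse functions: the strong form, with orders

Let `f ∈ ℂ[x_1, …, x_N]` be a polynomial such that `f + y_1 z_1 + ⋯ + y_k z_k` becomes, by some automorphism
of the ring of polynomials in `N + 2 k` variables, a polynomial `G = ∑_j a_j X ^ (v j)` with affinely
independent exponents. There is no condition on the coefficients `a_j ≠ 0`, no condition on the
singularities of `f`, and `f` itself may have many terms. We prove that for every `e ≥ 2` the product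
`b_f(s) Z^(e)(s)` of the Bernstein-Sato polynomial and the global twisted topological zeta function of
`f` is a polynomial divisible by `s + 1`: every pole of `Z^(e)` is a root of the reduced
Bernstein-Sato polynomial, of at least the same order. So the twisted monodromy conjecture holds for
`f` and all `e ≥ 2`, by the theorem of Malgrange and Kashiwara.

Examples (second and third part of the theorem): `f(x) = Φ(x, p_1(x) / c_1, …, p_k(x) / c_k)` where
the exponents of `Φ(x, z)`, of the `y_i p_i(x)` and of the `y_i z_i` are, all together, affinely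
independent, for instance `x ^ u ∏_i p_i ^ (e_i)` with `p_i = x ^ (α i) + x ^ (β i)` and linearly
independent differences `α i - β i`; and iterated compositions such as `((x_2 ^ a - x_1 ^ b) ^ c - x_3 ^ d) ^ e - …`.

Method. `f + ∑ y_i z_i` has a functional equation with `(s + 1) c(s + k)` if `b_f(s) = (s + 1) c(s)`; for
`G` this gives a relation of the coefficients which implies that `c(s + k) Z_G^(e)(s)` is a polynomial
(`W525.SM`, `W30.TW`), and `Z_f^(e)(s) = Z_G^(e)(s - k)` for `e ≥ 2`.
-/

set_option autoImplicit false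

namespace Pool.Agent.Results.MP_b22d1f_ag.StablySparseTwisted

open Polynomial Pool.Agent.H628R4.TP
open Pool.Agent.W425.SM (SmoothFan Principal sparse)
open Pool.Agent.Y229.RE (unstab ex)
open Pool.Agent.Y229.PG (BecomesG)
open Pool.Agent.W749.JI (fam)
open Pool.Agent.Q300.TW (topZetaH)

/-- The strong twisted monodromy conjecture for `f`, with orders: `b(s) Z_f^(e)(s)` is a polynomial
divisible by `s + 1` for all `e ≥ 2` and every `b` with `b(s) f ^ s = P(s) f ^ (s + 1)`, `P(s)` a
differential operator in the Weyl algebra, polynomial in `s` (`IsBFunction`). Here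
`f + ∑_{i ≤ k} y_i z_i` becomes `G = ∑_j a_j X ^ (v j)` by an automorphism, `Z_f^(e) = unstab k e Z`, that is
`Z_f^(e)(s) = Z(s - k)`, is the global twisted topological zeta function of `f`, and
`Z = topZetaH v R e` is the twisted topological zeta function of `G` on the toric resolution of any
smooth fan `R` subdividing the orthant of `ℝ ^ (N + 2 k)` on which the ideal of the monomials of `G`
becomes principal. -/
def TwistedStrong {N k r : ℕ} (f : MvPolynomial (Fin N) ℂ) (v : Fin r → Fin (N + (k + k)) → ℕ) :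
    Prop :=
  ∀ b : ℂ[X], IsBFunction f b → ∀ R : SmoothFan (N + (k + k)), Principal v R →
    ∀ e : ℕ, 2 ≤ e → ∃ P : ℂ[X], algebraMap ℂ[X] (RatFunc ℂ) b *
      unstab k e (topZetaH v R e) = algebraMap ℂ[X] (RatFunc ℂ) ((X + 1) * P)

/-- **The strong twisted monodromy conjecture for stably sparse functions.** Let `r ≥ 2`, `a_j ≠ 0`
for `j = 1, …, r`.

First part: `BecomesG f k (sparse v a)`: `f + ∑_{i ≤ k} y_i z_i` becomes `∑_j a_j X ^ (v j)`, `v j ≠ 0`, by an
automorphism of the polynomial ring, the `v j` are affinely independent, `f` is not constant.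

Second and third part: let `m_j ∈ ℕ ^ (N + k)` be exponents of monomials in `x_1, …, x_N, z_1, …, z_k`, in
groups `π j ∈ {0, …, k}` (nonzero in the group `0`), `Φ = fam π m a 0 = ∑_{π j = 0} a_j X ^ (m_j)` and
`l_i = fam π m a i = ∑_{π j = i} a_j X ^ (m_j)`, `i = 1, …, k`; the exponents `ex π m` of `Φ + ∑ y_i l_i` are
affinely independent. Second part: `l_i = c_i z_i - p_i(x)`, `c_i ≠ 0`, and
`f(x) = Φ(x, p_1(x) / c_1, …, p_k(x) / c_k)`. Third part: `θ(x_i) = x_i`, `θ(z_i) = l_i` for an automorphism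
`θ` of `ℂ[x, z]` (for instance if `l_i = c_i z_i - p_i(x, z_1, …, z_{i-1})`) and
`Φ = f + ∑ q_i l_i`, `q_i ∈ ℂ[x, z]`. -/
theorem result {N k r : ℕ} (hr : 2 ≤ r) (a : Fin r → ℂ) (ha : ∀ j, a j ≠ 0) :
    (∀ v : Fin r → Fin (N + (k + k)) → ℕ,
      AffineIndependent ℚ (fun j => (fun i => (v j i : ℚ) : Fin (N + (k + k)) → ℚ)) →
      (∀ j, v j ≠ 0) → ∀ f : MvPolynomial (Fin N) ℂ, f.totalDegree ≠ 0 →
      BecomesG f k (sparse v a) → TwistedStrong f v) ∧
    ∀ (π : Fin r → Fin (k + 1)) (m : Fin r → Fin (N + k) → ℕ),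
      AffineIndependent ℚ (fun j => (fun i => (ex π m j i : ℚ) : Fin (N + (k + k)) → ℚ)) →
      (∀ j, π j = 0 → m j ≠ 0) →
      (∀ (c : Fin k → ℂ) (p : Fin k → MvPolynomial (Fin N) ℂ), (∀ i, c i ≠ 0) →
        (∀ i : Fin k, fam π m a i.succ = MvPolynomial.C (c i) * MvPolynomial.X (Fin.natAdd N i) -
          MvPolynomial.rename (Fin.castAdd k) (p i)) →
        ∀ f : MvPolynomial (Fin N) ℂ, f = MvPolynomial.aeval (Fin.append MvPolynomial.X
          fun i => MvPolynomial.C (c i)⁻¹ * p i) (fam π m a 0) → f.totalDegree ≠ 0 →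
        TwistedStrong f (ex π m)) ∧
      (∀ θ : MvPolynomial (Fin (N + k)) ℂ ≃ₐ[ℂ] MvPolynomial (Fin (N + k)) ℂ,
        (∀ i, θ (MvPolynomial.X (Fin.castAdd k i)) = MvPolynomial.X (Fin.castAdd k i)) →
        (∀ i, θ (MvPolynomial.X (Fin.natAdd N i)) = fam π m a i.succ) →
        ∀ (f : MvPolynomial (Fin N) ℂ) (q : Fin k → MvPolynomial (Fin (N + k)) ℂ),
          f.totalDegree ≠ 0 → fam π m a 0 =
            MvPolynomial.rename (Fin.castAdd k) f + ∑ i, q i * fam π m a i.succ →
        TwistedStrong f (ex π m)) := by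
  refine ⟨fun v hv hv0 f hf hB b hb R hR =>
    (Pool.Agent.Q300.TW.stab_sparse hr v a hv hv0 ha f hf hB b hb R hR).2, fun π m hv hm =>
    ⟨?_, fun θ hx hz f q hf hF b hb R hR =>
      (Pool.Agent.Q300.TW.comp_sparse hr π m hv hm a ha θ hx hz f q hf hF b hb R hR).2⟩⟩
  intro c p hc hl f hf hf0 b hb R hR
  obtain ⟨θ, h1, h2⟩ := Pool.Agent.Y229.PG.graph_equiv c hc p
  obtain ⟨q, hq⟩ := Pool.Agent.Y229.PG.graph_restrict c hc p (fam π m a 0)
  refine (Pool.Agent.Q300.TW.comp_sparse hr π m hv hm a ha θ h1 (fun i => ?_) f q hf0 ?_ b hb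
    R hR).2
  · rw [h2, hl]
  · rw [hf]
    simp only [hl]
    exact hq

end Pool.Agent.Results.MP_b22d1f_ag.StablySparseTwisted
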