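import Pool.Agent.Q282.DL.TupW

set_option autoImplicit false

/-! # The twisted monodromy conjecture for forms over products of linear ideals: a criterion on the
# multiplicities

Let `L s = zeros (c s)`, `s ∈ S`, be proper linear subspaces of the affine space `ℂ ^ σ`, given as the
zeros of linear forms with the coefficients `c s j`. For `t ∈ T` let
`F_t = ∑_j y_{t,j} M_{t,j}(x)`, where the `M_{t,j}` are the products of these linear forms, `e t s`
of them from the family of index `s`, `s ∈ S` (`arrGen`; they generate the ideal
`∏ s, I(L s) ^ e t s`), and the `y_{t,j}` are further variables, separate for each `t`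
(`blockForm`). Let `f = ∏ t, F_t ^ a t` (`powProd`).

Let `𝒢` be a building set of linear subspaces (De Concini and Procesi) which contains the `L s`
which occur in `f`, and let `Y` be the wonderful model, which is obtained from the affine space by
blowing up the strict transforms of the members of `𝒢`, in the order of the dimension. It is smooth,
the components `E_G`, `G ∈ 𝒢`, cross normally, the multiplicity of the Jacobian determinant along
`E_G` is `ν_G - 1` with `ν_G = codim G`, and the ideal of `L s` becomes the ideal of the divisor
`∑ E_G`, over the `G ⊆ L s`. So locally on `Y` the form `F_t` is one of the `M_{t,j}` times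
`y_{t,j} + ∑_{i ≠ j} g_i y_{t,i}`; hence `Y` times the space of the `y` is an embedded resolution of
`f`, with the components `E_G`, of multiplicity `N_G = ∑ t, a t ∑ e t s`, the second sum over the
`s` with `G ⊆ L s`, and, for `a t > 0`, the strict transform of `F_t = 0`, with multiplicity `a t`
and `ν = 1` (`mulA`, `nuA`). The twisted topological zeta function `Z^(d)` of `f` is `twZ d ν N χ`, the sum over the
non-empty sets `J` of components whose multiplicities are divisible by `d` of
`χ J ∏_{i ∈ J} 1 / (N_i s + ν_i)`, `χ J` the Euler characteristic of the stratum.

The theorem: only the components `E_G` whose multiplicity `N_G` is divisible by `d` and which occur in a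
`J` with `χ J ≠ 0` all of whose multiplicities are divisible by `d` matter, and such a component causes
no problem if `N_G` divides the multiplicity `N_G'` of some Rees flat `G'` (`IsReesFlat`; an equivalent
condition is that `E_G'` is a Rees divisor of the product of the `I(L s)`), or divides some `a t > 0`
(`DvdMult`). This is a condition on the multiplicities only. Rees flats themselves satisfy it
(`G' = G`); the other flats `G`, whose divisor `E_G` is contracted in the blow-up of the product of the
ideals, are allowed now.

The proof: a functional equation of `f` gives a functional equation of the product of the ideals,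
with the same `b` (`locEq_of_powProd`); for a Rees flat `G'` all the numbers
`-(codim G' + l) / N_G'`, `0 ≤ l < N_G'`, are roots (`arr_core`), and these represent all the multiples
of `1 / N_G'` modulo `ℤ`; the roots `-(1 + l) / a t` come from the strict transforms
(`strict_root`). -/

namespace Pool.Agent.Results.MP_b22d1f_ag.SubspaceMultiplicities

open Pool.Agent.W574.HS Pool.Agent.H628R4.TP Pool.Agent.TH192.DT Pool.Agent.TH187.SA
  Pool.Agent.Q282.DL

/-- **The twisted monodromy conjecture for `f = ∏ t, F_t ^ a t` holds if the relevant multiplicities
divide multiplicities of Rees flats or some `a t`.** For every `d`, every pole `s₀` of the twisted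
topological zeta function `Z^(d)` of `f`, computed on the resolution described above, with arbitrary
integers `χ J` in the place of the Euler characteristics, and every `b` with
`b(s) f ^ s = P(s) f ^ (s + 1)`, in particular for the Bernstein-Sato polynomial of `f`, some `s₀ - i`,
`i ∈ ℤ`, is a root of `b` (`RootModZ`); by the theorem of Malgrange and Kashiwara `exp(2 π i s₀)` is an
eigenvalue of the monodromy of `f` at some point. The hypothesis `hG` concerns only the `G i` whose
multiplicity is divisible by `d` and which occur in a `J` with `χ J ≠ 0` all of whose multiplicities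
are divisible by `d`. -/
theorem result {σ S T I : Type} [Fintype σ] [DecidableEq σ] [Fintype S] [DecidableEq S] [Fintype T]
    [DecidableEq T] [Fintype I] {κ : S → Type} [∀ s, Fintype (κ s)] [∀ s, DecidableEq (κ s)]
    (c : (s : S) → κ s → σ → ℂ) (hc : ∀ s, ∃ j, c s j ≠ 0) (e : T → S → ℕ) (a : T → ℕ)
    (G : I → Submodule ℂ (σ → ℂ)) (hG0 : ∀ i, G i ≠ ⊤) (χ : Finset (I ⊕ T) → ℤ) (d : ℕ)
    (hG : ∀ i, 0 < ∑ t, a t * mult (fun s => zeros (c s)) (e t) (G i) →
      d ∣ ∑ t, a t * mult (fun s => zeros (c s)) (e t) (G i) →
      (∃ J, χ J ≠ 0 ∧ Sum.inl i ∈ J ∧ ∀ x ∈ J, d ∣ mulA (fun s => zeros (c s)) e a G x) →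
        DvdMult c e a (∑ t, a t * mult (fun s => zeros (c s)) (e t) (G i)))
    (s₀ : ℂ) (hs : (twZ d (nuA G T) (mulA (fun s => zeros (c s)) e a G) χ).denom.eval s₀ = 0)
    (b : Polynomial ℂ) (hb : IsBFunction (powProd a fun t => arrGen c (e t)) b) :
    RootModZ b s₀ :=
  arr_tw c hc e a G hG0 χ d hG s₀ hs b hb

end Pool.Agent.Results.MP_b22d1f_ag.SubspaceMultiplicities
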