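import Pool.Agent.Q59.TR.Mot
import Pool.Agent.Y229.RE.Loc

/-!
# The monodromy conjecture for twisted topological zeta functions: reduction to trilinear polynomials

For `f ∈ ℂ[x_1, …, x_n]` and `κ ≥ κ(f)` the polynomial `f(x) + y_1 z_1 + ⋯ + y_κ z_κ` becomes, by an
automorphism of the polynomial ring, a polynomial of the form `∑ a_{ijk} x_i y_j z_k` with
`x_0 = y_0 = z_0 = 1` (`Pool.Agent.Q59.TR`). The twisted topological zeta functions of `f` and of
`f + y z` determine each other (`IsTwisted`, known properties which are hypotheses here), and so do the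
functional equations of Bernstein and Sato.
-/

set_option autoImplicit false

namespace Pool.Agent.Results.MP_b22d1f_ag.TwistedTrilinear

open MvPolynomial Pool.Agent.H628R4.TP
open Pool.Agent.Y229.MS (addyz itr)
open Pool.Agent.Y229.RE (shiftZ shiftZ_poly)
open Pool.Agent.Q59.TR (exists_chain deg_iso itr_deg b_itr factor)

/-- The properties of the twisted topological zeta functions `Z e n f = Z_f^(e)` of the non-constant
polynomials `f` in `n` variables which are used. `iso`: invariance under isomorphisms of polynomial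
rings. `add` and `one`: for `e ≥ 2` one has `Z_f^(e)(s) = Z_{f + y z}^(e)(s - 1)`, and for `e = 1`, with a
constant `χ` (the Euler characteristic of `{f = 0}`; if the complement is counted in the zeta function,
that of the affine space),
`(χ - Z_f(s)) (s - 1) (s + 1) = (χ - Z_{f + y z}(s - 1)) s ^ 2`. Here `shiftZ 1 W` is `W(s - 1)` and
`addyz f` is `f + y z`, a polynomial in `n + 2` variables. -/
structure IsTwisted (Z : ℕ → (n : ℕ) → MvPolynomial (Fin n) ℂ → RatFunc ℂ) : Prop where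
  iso : ∀ (e a b : ℕ) (ψ : MvPolynomial (Fin a) ℂ ≃ₐ[ℂ] MvPolynomial (Fin b) ℂ)
    (F : MvPolynomial (Fin a) ℂ), 1 ≤ e → F.totalDegree ≠ 0 → Z e b (ψ F) = Z e a F
  add : ∀ (e n : ℕ) (F : MvPolynomial (Fin n) ℂ), 2 ≤ e → F.totalDegree ≠ 0 →
    Z e n F = shiftZ 1 (Z e (n + 2) (addyz F))
  one : ∀ (n : ℕ) (F : MvPolynomial (Fin n) ℂ), F.totalDegree ≠ 0 → ∃ χ : ℂ,
    (RatFunc.C χ - Z 1 n F) * ((RatFunc.X - 1) * (RatFunc.X + 1)) =
      (RatFunc.C χ - shiftZ 1 (Z 1 (n + 2) (addyz F))) * RatFunc.X ^ 2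

/-- `f = ∑ a_{ijk} x_i y_j z_k` with `x_0 = y_0 = z_0 = 1`: the variables can be coloured with three
colours such that every monomial of `f` is of degree at most one in the variables of each colour. -/
def Trilinear {n : ℕ} (f : MvPolynomial (Fin n) ℂ) : Prop :=
  ∃ col : Fin n → Fin 3, ∀ w ∈ f.support, ∀ g : Fin 3,
    ∑ i ∈ Finset.univ.filter (fun i => col i = g), w i ≤ 1

/-- The conjecture for the rational function `Zf` and `f`: for every pole `s₀` of `Zf` and every
polynomial `b` with `b(s) f ^ s = P(s) f ^ (s + 1)`, `P(s)` a differential operator in the Weyl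
algebra, polynomial in `s` (`IsBFunction`), in particular for the Bernstein-Sato polynomial, some
`s₀ + i`, `i ∈ ℤ`, is a root of `b`; by the theorems of Malgrange and Kashiwara, `exp(2 π i s₀)` is an
eigenvalue of the monodromy of `f` at a point of `{f = 0}`. -/
def Weak {n : ℕ} (Zf : RatFunc ℂ) (f : MvPolynomial (Fin n) ℂ) : Prop :=
  ∀ s₀ : ℂ, Zf.denom.eval s₀ = 0 → ∀ b : Polynomial ℂ, IsBFunction f b →
    ∃ i : ℤ, b.eval (s₀ + (i : ℂ)) = 0

/-- The strong form with orders: `b(s) Zf(s)` is a polynomial for every `b` with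
`b(s) f ^ s = P(s) f ^ (s + 1)`. -/
def Strong {n : ℕ} (Zf : RatFunc ℂ) (f : MvPolynomial (Fin n) ℂ) : Prop :=
  ∀ b : Polynomial ℂ, IsBFunction f b →
    ∃ P : Polynomial ℂ, algebraMap (Polynomial ℂ) (RatFunc ℂ) b * Zf = algebraMap _ _ P

/-- The reduced strong form with orders: `c(s) Zf(s)` is a polynomial for every `c` with
`(s + 1) c(s) f ^ s = P(s) f ^ (s + 1)`, in particular for the reduced Bernstein-Sato polynomial
`b_f(s) / (s + 1)`. -/
def StrongReduced {n : ℕ} (Zf : RatFunc ℂ) (f : MvPolynomial (Fin n) ℂ) : Prop :=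
  ∀ c : Polynomial ℂ, IsBFunction f ((Polynomial.X + 1) * c) →
    ∃ P : Polynomial ℂ, algebraMap (Polynomial ℂ) (RatFunc ℂ) c * Zf = algebraMap _ _ P

/-! ### Poles -/

lemma denom_of {W : RatFunc ℂ} {Q P : Polynomial ℂ} {s : ℂ}
    (h : algebraMap (Polynomial ℂ) (RatFunc ℂ) Q * W = algebraMap _ _ P) (hQ : Q.eval s ≠ 0) :
    W.denom.eval s ≠ 0 := by
  have hQ0 : Q ≠ 0 := by
    rintro rfl
    exact hQ Polynomial.eval_zero
  have hd : W.denom ∣ Q := by
    refine (RatFunc.denom_dvd hQ0).2 ⟨P, ?_⟩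
    have h1 : algebraMap (Polynomial ℂ) (RatFunc ℂ) Q ≠ 0 := by
      rw [Ne, map_eq_zero_iff _ (RatFunc.algebraMap_injective ℂ)]
      exact hQ0
    field_simp
    rw [mul_comm]
    exact h
  obtain ⟨R, hR⟩ := hd
  intro h0
  apply hQ
  rw [hR, Polynomial.eval_mul, h0, zero_mul]

lemma denom_mul (W : RatFunc ℂ) :
    algebraMap (Polynomial ℂ) (RatFunc ℂ) W.denom * W = algebraMap _ _ W.num := by
  have h1 : algebraMap (Polynomial ℂ) (RatFunc ℂ) W.denom ≠ 0 := by
    rw [Ne, map_eq_zero_iff _ (RatFunc.algebraMap_injective ℂ)]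
    exact RatFunc.denom_ne_zero W
  have h2 := RatFunc.num_div_denom W
  nth_rewrite 2 [← h2]
  field_simp

lemma shift_mul (W : RatFunc ℂ) :
    algebraMap (Polynomial ℂ) (RatFunc ℂ) (W.denom.comp (Polynomial.X - Polynomial.C ((1 : ℕ) : ℂ))) *
      shiftZ 1 W = algebraMap _ _ (W.num.comp (Polynomial.X - Polynomial.C ((1 : ℕ) : ℂ))) := by
  rw [← shiftZ_poly, ← shiftZ_poly, ← denom_mul W, map_mul]

variable {Z : ℕ → (n : ℕ) → MvPolynomial (Fin n) ℂ → RatFunc ℂ}

/-- the poles of `f` and `f + y z` -/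
lemma pole_add (hZ : IsTwisted Z) {e n : ℕ} (he : 1 ≤ e) (F : MvPolynomial (Fin n) ℂ)
    (hF : F.totalDegree ≠ 0) {s : ℂ} (h1 : s ≠ 1) (h2 : s ≠ -1)
    (hs : (Z e n F).denom.eval s = 0) : (Z e (n + 2) (addyz F)).denom.eval (s - 1) = 0 := by
  by_contra hne
  set W := Z e (n + 2) (addyz F) with hW
  have h3 := shift_mul W
  have h4 : (W.denom.comp (Polynomial.X - Polynomial.C ((1 : ℕ) : ℂ))).eval s ≠ 0 := by
    rw [Polynomial.eval_comp, Polynomial.eval_sub, Polynomial.eval_X, Polynomial.eval_C,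
      Nat.cast_one]
    exact hne
  set D := W.denom.comp (Polynomial.X - Polynomial.C ((1 : ℕ) : ℂ)) with hD
  set N := W.num.comp (Polynomial.X - Polynomial.C ((1 : ℕ) : ℂ)) with hN
  rcases Nat.lt_or_ge 1 e with h | h
  · rw [hZ.add e n F h hF] at hs
    exact denom_of h3 h4 hs
  · have he1 : e = 1 := le_antisymm h he
    subst he1
    obtain ⟨χ, hχ⟩ := hZ.one n F hF
    rw [← hW] at hχ
    refine denom_of (Q := D * ((Polynomial.X - 1) * (Polynomial.X + 1)))
      (P := D * Polynomial.C χ * ((Polynomial.X - 1) * (Polynomial.X + 1)) -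
        (D * Polynomial.C χ - N) * Polynomial.X ^ 2) ?_ ?_ hs
    · simp only [map_mul, map_sub, map_add, map_one, map_pow, RatFunc.algebraMap_X,
        RatFunc.algebraMap_C]
      rw [← h3]
      linear_combination (- algebraMap (Polynomial ℂ) (RatFunc ℂ) D) * hχ
    · rw [Polynomial.eval_mul, Polynomial.eval_mul, Polynomial.eval_sub, Polynomial.eval_add,
        Polynomial.eval_X, Polynomial.eval_one]
      refine mul_ne_zero h4 (mul_ne_zero (sub_ne_zero.2 h1) fun h0 => h2 ?_)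
      linear_combination h0

/-- the poles along the chain -/
lemma pole_itr (hZ : IsTwisted Z) {e n : ℕ} (he : 1 ≤ e) (F : MvPolynomial (Fin n) ℂ)
    (hF : F.totalDegree ≠ 0) {s : ℂ} (hint : ∀ i : ℤ, s ≠ i)
    (hs : (Z e n F).denom.eval s = 0) : ∀ j : ℕ,
      (Z e (n + 2 * j) (itr F j)).denom.eval (s - j) = 0
  | 0 => by
    rw [Nat.cast_zero, sub_zero]
    exact hs
  | j + 1 => by
    have h := pole_add hZ he (itr F j) (itr_deg hF j) (s := s - j)
      (fun h => hint (j + 1) (by push_cast; linear_combination h))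
      (fun h => hint (j - 1) (by push_cast; linear_combination h)) (pole_itr hZ he F hF hint hs j)
    have h2 : s - (j : ℂ) - 1 = s - ((j + 1 : ℕ) : ℂ) := by
      push_cast
      ring
    rw [h2] at h
    exact h

/-- polynomials along the chain -/
lemma poly_itr (hZ : IsTwisted Z) {e n : ℕ} (he : 2 ≤ e) (F : MvPolynomial (Fin n) ℂ)
    (hF : F.totalDegree ≠ 0) : ∀ (j : ℕ) (Q P : Polynomial ℂ),
      algebraMap (Polynomial ℂ) (RatFunc ℂ) Q * Z e (n + 2 * j) (itr F j) = algebraMap _ _ P →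
      algebraMap (Polynomial ℂ) (RatFunc ℂ) (Q.comp (Polynomial.X - Polynomial.C (j : ℂ))) *
        Z e n F = algebraMap _ _ (P.comp (Polynomial.X - Polynomial.C (j : ℂ)))
  | 0, Q, P, h => by
    have h1 : algebraMap (Polynomial ℂ) (RatFunc ℂ) Q * Z e n F = algebraMap _ _ P := h
    simpa using h1
  | j + 1, Q, P, h => by
    have h1 := congrArg (shiftZ 1) h
    rw [map_mul, shiftZ_poly, shiftZ_poly] at h1
    have h2 : shiftZ 1 (Z e (n + 2 * (j + 1)) (itr F (j + 1))) = Z e (n + 2 * j) (itr F j) :=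
      (hZ.add e (n + 2 * j) (itr F j) he (itr_deg hF j)).symm
    rw [h2] at h1
    have h3 := poly_itr hZ he F hF j _ _ h1
    have h4 : ∀ R : Polynomial ℂ, (R.comp (Polynomial.X - Polynomial.C ((1 : ℕ) : ℂ))).comp
        (Polynomial.X - Polynomial.C (j : ℂ)) =
        R.comp (Polynomial.X - Polynomial.C ((j + 1 : ℕ) : ℂ)) := by
      intro R
      rw [Polynomial.comp_assoc]
      congr 1
      simp only [Polynomial.sub_comp, Polynomial.X_comp, Polynomial.C_comp]
      push_cast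
      rw [Polynomial.C_add, Polynomial.C_1]
      ring
    rw [h4, h4] at h3
    exact h3

lemma eval_b {c : Polynomial ℂ} (κ : ℕ) (s : ℂ) :
    ((Polynomial.X + 1) * c.comp (Polynomial.X + Polynomial.C (κ : ℂ))).eval s =
      (s + 1) * c.eval (s + κ) := by
  rw [Polynomial.eval_mul, Polynomial.eval_comp, Polynomial.eval_add, Polynomial.eval_add,
    Polynomial.eval_X, Polynomial.eval_C, Polynomial.eval_one]

theorem weak_transfer (hZ : IsTwisted Z) {e : ℕ} (he : 1 ≤ e)
    (H : ∀ (n : ℕ) (f : MvPolynomial (Fin n) ℂ), f.totalDegree ≠ 0 → Trilinear f →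
      Weak (Z e n f) f) {n : ℕ} (f : MvPolynomial (Fin n) ℂ) (hf : f.totalDegree ≠ 0) :
    Weak (Z e n f) f := by
  intro s hs b hb
  obtain ⟨c, rfl⟩ := factor hf hb
  have hev : ∀ s : ℂ, ((Polynomial.X + 1) * c).eval s = (s + 1) * c.eval s := fun s => by
    rw [Polynomial.eval_mul, Polynomial.eval_add, Polynomial.eval_X, Polynomial.eval_one]
  by_cases hint : ∃ i : ℤ, s = i
  · obtain ⟨i, rfl⟩ := hint
    refine ⟨-1 - i, ?_⟩
    rw [hev]
    have h0 : (i : ℂ) + ((-1 - i : ℤ) : ℂ) + 1 = 0 := by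
      push_cast
      ring
    rw [h0, zero_mul]
  push Not at hint
  obtain ⟨κ, hκ⟩ := exists_chain f
  obtain ⟨M, G, ψ, hM, hψ, hT, -⟩ := hκ κ le_rfl
  have hG : G.totalDegree ≠ 0 := by
    rw [← hψ]
    exact deg_iso ψ (itr_deg hf κ)
  have h1 := pole_itr hZ he f hf hint hs κ
  rw [← hZ.iso e _ _ ψ _ he (itr_deg hf κ), hψ] at h1
  obtain ⟨i, hi⟩ := H M G hG hT _ h1 _ (by
    rw [← hψ]
    exact Pool.Agent.W206.CU.isBFunction_iso ψ (b_itr hf hb κ))
  rw [eval_b] at hi
  rcases mul_eq_zero.1 hi with h2 | h2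
  · exfalso
    refine hint (κ - i - 1) ?_
    push_cast
    linear_combination h2
  · refine ⟨i, ?_⟩
    rw [hev]
    have h3 : s - (κ : ℂ) + i + κ = s + i := by ring
    rw [h3] at h2
    rw [h2, mul_zero]

theorem strong_transfer (hZ : IsTwisted Z) {e : ℕ} (he : 2 ≤ e)
    (H : ∀ (n : ℕ) (f : MvPolynomial (Fin n) ℂ), f.totalDegree ≠ 0 → Trilinear f →
      Strong (Z e n f) f) {n : ℕ} (f : MvPolynomial (Fin n) ℂ) (hf : f.totalDegree ≠ 0) :
    StrongReduced (Z e n f) f := by
  intro c hc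
  obtain ⟨κ, hκ⟩ := exists_chain f
  have key : ∀ j : ℕ, κ ≤ j → ∃ P : Polynomial ℂ,
      algebraMap (Polynomial ℂ) (RatFunc ℂ) ((Polynomial.X - Polynomial.C (j : ℂ) + 1) * c) *
        Z e n f = algebraMap _ _ P := by
    intro j hj
    obtain ⟨M, G, ψ, hM, hψ, hT, -⟩ := hκ j hj
    have hG : G.totalDegree ≠ 0 := by
      rw [← hψ]
      exact deg_iso ψ (itr_deg hf j)
    obtain ⟨P, hP⟩ := H M G hG hT _ (by
      rw [← hψ]
      exact Pool.Agent.W206.CU.isBFunction_iso ψ (b_itr hf hc j))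
    rw [← hψ, hZ.iso e _ _ ψ _ (by omega) (itr_deg hf j)] at hP
    have h1 := poly_itr hZ he f hf j _ _ hP
    refine ⟨P.comp (Polynomial.X - Polynomial.C (j : ℂ)), ?_⟩
    rw [← h1]
    congr 2
    rw [Polynomial.mul_comp, Polynomial.comp_assoc]
    congr 1
    · simp
    · have h2 : (Polynomial.X + Polynomial.C (j : ℂ)).comp
          (Polynomial.X - Polynomial.C (j : ℂ)) = Polynomial.X := by
        simp
      rw [h2, Polynomial.comp_X]
  obtain ⟨P1, h1⟩ := key κ le_rfl
  obtain ⟨P2, h2⟩ := key (κ + 1) (Nat.le_succ κ)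
  refine ⟨P1 - P2, ?_⟩
  rw [map_sub, ← h1, ← h2, ← sub_mul, ← map_sub]
  congr 2
  push_cast
  rw [Polynomial.C_add, Polynomial.C_1]
  ring

lemma strong_of_reduced {n : ℕ} {Zf : RatFunc ℂ} {f : MvPolynomial (Fin n) ℂ}
    (hf : f.totalDegree ≠ 0) (h : StrongReduced Zf f) : Strong Zf f := by
  intro b hb
  obtain ⟨c, rfl⟩ := factor hf hb
  obtain ⟨P, hP⟩ := h c hb
  refine ⟨(Polynomial.X + 1) * P, ?_⟩
  rw [map_mul, map_mul, mul_assoc, hP]

/-- **Reduction of the monodromy conjecture for twisted topological zeta functions to trilinear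
polynomials.** (1) For each `e ≥ 1` the conjecture for all non-constant polynomials is equivalent to
the conjecture for the trilinear ones. (2) For each `e ≥ 2` the reduced strong form with orders for all
non-constant polynomials is equivalent to the strong form with orders for the trilinear ones. -/
theorem result (Z : ℕ → (n : ℕ) → MvPolynomial (Fin n) ℂ → RatFunc ℂ) (hZ : IsTwisted Z) :
    (∀ e : ℕ, 1 ≤ e →
      ((∀ (n : ℕ) (f : MvPolynomial (Fin n) ℂ), f.totalDegree ≠ 0 → Weak (Z e n f) f) ↔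
        ∀ (n : ℕ) (f : MvPolynomial (Fin n) ℂ), f.totalDegree ≠ 0 → Trilinear f →
          Weak (Z e n f) f)) ∧
    ∀ e : ℕ, 2 ≤ e →
      ((∀ (n : ℕ) (f : MvPolynomial (Fin n) ℂ), f.totalDegree ≠ 0 → StrongReduced (Z e n f) f) ↔
        ∀ (n : ℕ) (f : MvPolynomial (Fin n) ℂ), f.totalDegree ≠ 0 → Trilinear f →
          Strong (Z e n f) f) :=
  ⟨fun _ he => ⟨fun h n f hf _ => h n f hf, fun h _ f hf => weak_transfer hZ he h f hf⟩,
    fun _ he => ⟨fun h n f hf _ => strong_of_reduced hf (h n f hf),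
      fun h _ f hf => strong_transfer hZ he h f hf⟩⟩

end Pool.Agent.Results.MP_b22d1f_ag.TwistedTrilinear
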